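import Mathlib

set_option autoImplicit false

namespace Pool.Agent.Results.MP_bbbdfa_lc.Bound

open Set Cardinal Filter Topology

universe u

/-- the star of `A` with respect to the family `𝒰` -/
def St {X : Type u} (A : Set X) (𝒰 : Set (Set X)) : Set X := ⋃₀ {U | U ∈ 𝒰 ∧ (U ∩ A).Nonempty}

/-- strongly star-Hurewicz spaces -/
def SSH (X : Type u) [TopologicalSpace X] : Prop :=
  ∀ 𝒰 : ℕ → Set (Set X), (∀ n, (∀ U ∈ 𝒰 n, IsOpen U) ∧ ⋃₀ 𝒰 n = Set.univ) →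
    ∃ F : ℕ → Set X, (∀ n, (F n).Finite) ∧ ∀ x, ∀ᶠ n in atTop, x ∈ St (F n) (𝒰 n)

/-- the bounding number -/
noncomputable def bb : Cardinal.{0} :=
  sInf {c | ∃ B : Set (ℕ → ℕ), #B = c ∧ ¬ ∃ g : ℕ → ℕ, ∀ f ∈ B, ∀ᶠ n in atTop, f n ≤ g n}

/-- the cofinality of the countable subsets of `κ` under inclusion -/
noncomputable def cofCt (κ : Cardinal.{0}) : Cardinal.{0} :=
  sInf {c | ∃ C : Set (Set κ.out), #C = c ∧ (∀ s ∈ C, s.Countable) ∧
    ∀ t : Set κ.out, t.Countable → ∃ s ∈ C, t ⊆ s}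

/-- the least fixed point of `cofCt` between the bounding number and the continuum -/
noncomputable def lam : Cardinal.{0} := sInf {κ | bb ≤ κ ∧ κ ≤ 𝔠 ∧ cofCt κ = κ}

theorem bb_spec : ∃ B : Set (ℕ → ℕ), #B = bb ∧
    ¬ ∃ g : ℕ → ℕ, ∀ f ∈ B, ∀ᶠ n in atTop, f n ≤ g n := by
  refine csInf_mem (s := {c | ∃ B : Set (ℕ → ℕ), #B = c ∧
    ¬ ∃ g : ℕ → ℕ, ∀ f ∈ B, ∀ᶠ n in atTop, f n ≤ g n}) ⟨_, univ, rfl, ?_⟩
  rintro ⟨g, hg⟩
  obtain ⟨n, hn⟩ := (hg (fun n => g n + 1) (mem_univ _)).exists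
  omega

theorem bb_unc : ℵ₀ < bb := by
  obtain ⟨B, h1, h2⟩ := bb_spec
  rw [← h1]
  by_contra h
  rw [not_lt, le_aleph0_iff_set_countable] at h
  obtain ⟨e, he⟩ := (h.insert fun _ => 0).exists_eq_range (insert_nonempty _ _)
  refine h2 ⟨fun n => (Finset.range (n + 1)).sup fun i => e i n, fun f hf => ?_⟩
  obtain ⟨i, rfl⟩ : f ∈ range e := he ▸ mem_insert_of_mem _ hf
  filter_upwards [eventually_ge_atTop i] with n hn
  exact Finset.le_sup (f := fun i => e i n) (Finset.mem_range.2 (by omega))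

theorem cof_spec (κ : Cardinal.{0}) : ∃ C : Set (Set κ.out), #C = cofCt κ ∧
    (∀ s ∈ C, s.Countable) ∧ ∀ t : Set κ.out, t.Countable → ∃ s ∈ C, t ⊆ s :=
  csInf_mem (s := {c | ∃ C : Set (Set κ.out), #C = c ∧ (∀ s ∈ C, s.Countable) ∧
    ∀ t : Set κ.out, t.Countable → ∃ s ∈ C, t ⊆ s})
    ⟨_, {s | s.Countable}, rfl, fun _ h => h, fun t h => ⟨t, h, Subset.rfl⟩⟩

theorem lam_spec : bb ≤ lam ∧ lam ≤ 𝔠 ∧ cofCt lam = lam := by
  refine csInf_mem (s := {κ | bb ≤ κ ∧ κ ≤ 𝔠 ∧ cofCt κ = κ}) ⟨𝔠, ?_, le_rfl, le_antisymm ?_ ?_⟩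
  · obtain ⟨B, h1, -⟩ := bb_spec
    rw [← h1]
    exact (mk_set_le B).trans (by simp)
  · refine le_trans (b := #{s : Set (𝔠 : Cardinal.{0}).out | s.Countable})
      (csInf_le' ⟨{s | s.Countable}, rfl, fun _ h => h, fun t h => ⟨t, h, Subset.rfl⟩⟩) ?_
    have h : ∀ s : {s : Set (𝔠 : Cardinal.{0}).out | s.Countable},
        ∃ f : ℕ → Option (𝔠 : Cardinal.{0}).out,
        s.1 = some ⁻¹' range f := by
      intro s
      obtain ⟨f, hf⟩ := ((s.2.image some).insert none).exists_eq_range (insert_nonempty _ _)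
      refine ⟨f, ?_⟩
      rw [← hf]
      ext x
      simp
    choose f hf using h
    refine (mk_le_of_injective (f := f) fun a b h => Subtype.ext ?_).trans
      (by simp [add_one_eq aleph0_le_continuum])
    rw [hf, hf, h]
  · obtain ⟨C, h1, h2, h3⟩ := cof_spec 𝔠
    by_contra h
    have h4 : (univ : Set (𝔠 : Cardinal.{0}).out) ⊆ ⋃ s : C, s.1 := by
      intro x _
      obtain ⟨s, hs, hx⟩ := h3 {x} (countable_singleton x)
      exact mem_iUnion.2 ⟨⟨s, hs⟩, hx rfl⟩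
    have h5 := (mk_le_mk_of_subset h4).trans (mk_iUnion_le_sum_mk.trans
      (sum_le_sum _ (fun _ => ℵ₀) fun s : C => le_aleph0_iff_set_countable.2 (h2 s.1 s.2)))
    rw [mk_univ, mk_out, sum_const', h1] at h5
    exact absurd h5 (not_le.2 (mul_lt_of_lt aleph0_le_continuum (not_le.1 h) aleph0_lt_continuum))

theorem system (κ : Cardinal.{0}) (h1 : bb ≤ κ) (h2 : cofCt κ = κ) :
    ∃ G : κ.out → ℕ → Set κ.out, (∀ x n, (G x n).Finite ∧ x ∉ G x n) ∧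
      ∀ F : ℕ → Set κ.out, (∀ n, (F n).Finite) → ∃ x, ∃ᶠ n in atTop, x ∉ F n ∧ F n ⊆ G x n := by
  obtain ⟨B, b1, b2⟩ := bb_spec
  obtain ⟨C, c1, c2, c3⟩ := cof_spec κ
  have hκ : ℵ₀ < κ := bb_unc.trans_le h1
  have hu : Uncountable κ.out := aleph0_lt_mk_iff.1 (by rwa [mk_out])
  obtain ⟨e⟩ : Nonempty ((C × B) × κ.out ↪ κ.out) := by
    rw [← Cardinal.le_def, mk_prod, mk_prod, lift_id, lift_id, lift_id, lift_id, c1, b1, h2, mk_out]
    exact mul_le_of_le hκ.le (mul_le_of_le hκ.le le_rfl h1) le_rfl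
  have h3 : ∀ p : C × B, ∃ x, (∃ y, e (p, y) = x) ∧ x ∉ p.1.1 := by
    intro p
    by_contra h
    push Not at h
    have : (Set.univ : Set κ.out).Countable :=
      Countable.mono (s₂ := (fun y => e (p, y)) ⁻¹' p.1.1) (fun y _ => h (e (p, y)) ⟨y, rfl⟩)
      ((c2 _ p.1.2).preimage_of_injOn (f := fun y => e (p, y)) fun a _ b _ h =>
        (Prod.ext_iff.1 (e.injective h)).2)
    exact not_countable_univ this
  choose x hx1 hx2 using h3
  have hi : Function.Injective x := by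
    intro p q h
    obtain ⟨y, hy⟩ := hx1 p
    obtain ⟨z, hz⟩ := hx1 q
    exact (Prod.ext_iff.1 (e.injective (hy.trans (h.trans hz.symm)))).1
  choose c hc using fun s : C => countable_iff_exists_injOn.1 (c2 s.1 s.2)
  let G : C × B → ℕ → Set κ.out := fun p n => {y | y ∈ p.1.1 ∧ c p.1 y ≤ p.2.1 n}
  refine ⟨Function.extend x G fun _ _ => ∅, fun y n => ?_, fun F hF => ?_⟩
  · by_cases h : ∃ p, x p = y
    · obtain ⟨p, rfl⟩ := h
      rw [hi.extend_apply]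
      exact ⟨Finite.of_finite_image ((finite_Iic (p.2.1 n)).subset (by
        rintro _ ⟨y, hy, rfl⟩
        exact hy.2)) ((hc p.1).mono fun y hy => hy.1), fun h => hx2 p h.1⟩
    · rw [Function.extend_apply' _ _ _ h]
      exact ⟨finite_empty, fun h => h⟩
  · obtain ⟨s, hs, h4⟩ := c3 (⋃ n, F n) (countable_iUnion fun n => (hF n).countable)
    choose g hg using fun n => ((hF n).image (c ⟨s, hs⟩)).bddAbove
    push Not at b2
    obtain ⟨f, hf, h5⟩ := b2 g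
    refine ⟨x (⟨s, hs⟩, ⟨f, hf⟩), ?_⟩
    rw [hi.extend_apply]
    refine h5.mono fun n hn => ⟨fun h => hx2 (⟨s, hs⟩, ⟨f, hf⟩) (h4 (mem_iUnion.2 ⟨n, h⟩)), fun y hy =>
      ⟨h4 (mem_iUnion.2 ⟨n, hy⟩), (hg n ⟨y, hy, rfl⟩).trans hn.le⟩⟩

theorem result (X : Type u) [TopologicalSpace X] [T1Space X] [RegularSpace X] (hX : SSH X)
    (D : Set X) (hc : IsClosed D) (hd : DiscreteTopology D) : #D < lift.{u} lam := by
  classical
  obtain ⟨h1, -, h2⟩ := lam_spec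
  obtain ⟨G, g1, g2⟩ := system lam h1 h2
  by_contra h
  obtain ⟨e⟩ : Nonempty (lam.out ↪ D) := by
    rw [← lift_mk_le', mk_out, lift_uzero]
    exact not_lt.1 h
  have hcl : ∀ S : Set X, S ⊆ D → IsClosed S := fun S hS =>
    isClosed_of_subset_discrete_closed hS ⟨hd⟩ hc
  have hU : ∀ a : lam.out, ∃ U : Set X, IsOpen U ∧ (e a).1 ∈ U ∧
      ∀ y ∈ D, y ∈ closure U → y = (e a).1 := by
    intro a
    obtain ⟨t, h3, h4, h5⟩ := exists_mem_nhds_isClosed_subset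
      ((hcl (D \ {(e a).1}) diff_subset).isOpen_compl.mem_nhds (x := (e a).1) fun h => h.2 rfl)
    refine ⟨interior t, isOpen_interior, mem_interior_iff_mem_nhds.2 h3, fun y hy h6 => ?_⟩
    by_contra h7
    exact h5 (closure_minimal interior_subset h4 h6) ⟨hy, h7⟩
  choose U u1 u2 u3 using hU
  let V : lam.out → ℕ → Set X := fun a n => U a \ ⋃ b ∈ G a n, closure (U b)
  have hV : ∀ a n, (e a).1 ∈ V a n := by
    intro a n
    refine ⟨u2 a, fun h => ?_⟩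
    obtain ⟨b, hb, h3⟩ := mem_iUnion₂.1 h
    have := e.injective (Subtype.ext (u3 b _ (e a).2 h3))
    exact (g1 a n).2 (this ▸ hb)
  let E : Set X := range fun a => (e a).1
  have hE : E ⊆ D := by
    rintro _ ⟨a, rfl⟩
    exact (e a).2
  obtain ⟨F, f1, f2⟩ := hX (fun n => insert Eᶜ (range fun a => V a n)) (by
    intro n
    refine ⟨?_, eq_univ_of_forall fun y => ?_⟩
    · rintro _ (rfl | ⟨a, rfl⟩)
      · exact (hcl E hE).isOpen_compl
      · exact (u1 a).sdiff ((g1 a n).1.isClosed_biUnion fun _ _ => isClosed_closure)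
    · by_cases hy : y ∈ E
      · obtain ⟨a, rfl⟩ := hy
        exact ⟨_, Or.inr ⟨a, rfl⟩, hV a n⟩
      · exact ⟨_, Or.inl rfl, hy⟩)
  have hz : ∀ y : X, ∃ z : Set lam.out, z.Finite ∧ ((∃ a, y ∈ U a) → ∃ a ∈ z, y ∈ U a) := by
    intro y
    by_cases h : ∃ a, y ∈ U a
    · obtain ⟨a, ha⟩ := h
      exact ⟨{a}, finite_singleton a, fun _ => ⟨a, rfl, ha⟩⟩
    · exact ⟨∅, finite_empty, fun h' => absurd h' h⟩
  choose z z1 z2 using hz
  obtain ⟨a, ha⟩ := g2 (fun n => ⋃ y ∈ F n, z y) fun n => (f1 n).biUnion fun y _ => z1 y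
  obtain ⟨n, ⟨-, h3⟩, W, ⟨rfl | ⟨b, rfl⟩, y, h4, h5⟩, h6⟩ := (ha.and_eventually (f2 (e a).1)).exists
  · exact h6 ⟨a, rfl⟩
  · obtain rfl : a = b := e.injective (Subtype.ext (u3 b _ (e a).2 (subset_closure h6.1)))
    obtain ⟨c, k1, k2⟩ := z2 y ⟨a, h4.1⟩
    exact h4.2 (mem_iUnion₂.2 ⟨c, h3 (mem_iUnion₂.2 ⟨y, h5, k1⟩), subset_closure k2⟩)

end Pool.Agent.Results.MP_bbbdfa_lc.Bound
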